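import Pool.Agent.Y834.Rot

/-!
# A uniquely ergodic interval exchange on four intervals with persistent cylinders nearby

`T α t` is the interval exchange with lengths `(α, 1 - α, α + t, 1 - α - t)` in which the four
intervals come back in the order third, first, fourth, second.
-/

set_option autoImplicit false

open MeasureTheory Set

namespace Pool.Agent.Y834.IET

/-- a measurable section of `ℝ → ℝ/ℤ` with values in `[α, α + 1)` -/
theorem exists_section (α : ℝ) : ∃ s : AddCircle (1:ℝ) → ℝ, Measurable s ∧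
    ∀ z ∈ Ico α (1 + α), s (z : AddCircle (1:ℝ)) = z := by
  have : Fact (0 < (1:ℝ)) := ⟨one_pos⟩
  refine ⟨fun c => (AddCircle.measurableEquivIco 1 α c : ℝ),
    measurable_subtype_coe.comp (AddCircle.measurableEquivIco 1 α).measurable, ?_⟩
  intro z hz
  have hz' : z ∈ Ico α (α + 1) := ⟨hz.1, by linarith [hz.2]⟩
  have h := (AddCircle.equivIco 1 α).apply_symm_apply ⟨z, hz'⟩
  have h2 := congrArg Subtype.val h
  exact h2

theorem ue_aux {α : ℝ} (h0 : 0 < α) (h1 : α < 1) (hα : Irrational α)
    (s : AddCircle (1:ℝ) → ℝ) (hs : Measurable s)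
    (hsec : ∀ z ∈ Ico α (1 + α), s (z : AddCircle (1:ℝ)) = z)
    (f : ℝ → ℝ) (hf : Measurable f)
    (f1 : ∀ z ∈ Ico 0 α, f z = z + α) (f2 : ∀ z ∈ Ico α 1, f z = z + 1)
    (f3 : ∀ z ∈ Ico 1 (1 + α), f z = z - 1) (f4 : ∀ z ∈ Ico (1 + α) 2, f z = z + α - 1)
    (μ : Measure ℝ) (hμ : IsProbabilityMeasure μ) (hsupp : μ (Ico 0 2)ᶜ = 0)
    (hi : Measure.map f μ = μ) :
    μ = Measure.map s ((2⁻¹ : NNReal) • (volume : Measure (AddCircle (1:ℝ)))) +
      Measure.map f (Measure.map s ((2⁻¹ : NNReal) • (volume : Measure (AddCircle (1:ℝ))))) := by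
  have : Fact (0 < (1:ℝ)) := ⟨one_pos⟩
  set φ : ℝ → AddCircle (1:ℝ) := fun z => (z : AddCircle (1:ℝ)) with hφ
  have hφm : Measurable φ := AddCircle.measurable_mk'
  have hae : ∀ᵐ z ∂μ, z ∈ Ico (0:ℝ) 2 := hsupp
  set B0 : Set ℝ := Ico α (1 + α) with hB0
  set B1 : Set ℝ := Ico 0 α ∪ Ico (1 + α) 2 with hB1
  have mB0 : MeasurableSet B0 := measurableSet_Ico
  have mB1 : MeasurableSet B1 := measurableSet_Ico.union measurableSet_Ico
  have g0 : ∀ z ∈ B0, f z ∈ B1 ∧ φ (f z) = φ z := by
    intro z hz
    rcases lt_or_ge z 1 with h | h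
    · rw [f2 z ⟨hz.1, h⟩]
      refine ⟨Or.inr ⟨by linarith [hz.1], by linarith⟩, ?_⟩
      simp only [hφ]
      rw [AddCircle.coe_add, AddCircle.coe_period, add_zero]
    · rw [f3 z ⟨h, hz.2⟩]
      refine ⟨Or.inl ⟨by linarith, by linarith [hz.2]⟩, ?_⟩
      simp only [hφ]
      rw [AddCircle.coe_sub, AddCircle.coe_period, sub_zero]
  have g1 : ∀ z ∈ B1, f z ∈ B0 ∧ φ (f z) = (α : AddCircle (1:ℝ)) + φ z := by
    intro z hz
    rcases hz with hz | hz
    · rw [f1 z hz]
      refine ⟨⟨by linarith [hz.1], by linarith [hz.2]⟩, ?_⟩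
      simp only [hφ]
      rw [AddCircle.coe_add, add_comm]
    · rw [f4 z hz]
      refine ⟨⟨by linarith [hz.1], by linarith [hz.2]⟩, ?_⟩
      simp only [hφ]
      rw [AddCircle.coe_sub, AddCircle.coe_period, sub_zero, AddCircle.coe_add, add_comm]
  have hcov : ∀ z ∈ Ico (0:ℝ) 2, (z ∈ B0 ∧ z ∉ B1) ∨ (z ∈ B1 ∧ z ∉ B0) := by
    intro z hz
    simp only [hB0, hB1, mem_union, mem_Ico]
    rcases lt_or_ge z α with h | h
    · right
      exact ⟨Or.inl ⟨hz.1, h⟩, fun h' => absurd h'.1 (not_le.2 h)⟩
    · rcases lt_or_ge z (1 + α) with h2 | h2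
      · left
        refine ⟨⟨h, h2⟩, ?_⟩
        rintro (h' | h')
        · exact absurd h'.2 (not_lt.2 h)
        · exact absurd h'.1 (not_le.2 h2)
      · right
        exact ⟨Or.inr ⟨h2, hz.2⟩, fun h' => absurd h'.2 (not_lt.2 h2)⟩
  have e1 : μ.restrict B1 = Measure.map f (μ.restrict B0) := by
    conv_lhs => rw [← hi]
    rw [Measure.restrict_map hf mB1]
    congr 1
    apply Measure.restrict_congr_set
    filter_upwards [hae] with z hz
    apply propext
    change f z ∈ B1 ↔ z ∈ B0
    rcases hcov z hz with h | h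
    · exact ⟨fun _ => h.1, fun _ => (g0 z h.1).1⟩
    · refine ⟨fun h' => ?_, fun h' => absurd h' h.2⟩
      have h3 := (g1 z h.1).1
      exfalso
      have hin : f z ∈ Ico (0:ℝ) 2 := ⟨by linarith [h3.1], by linarith [h3.2]⟩
      rcases hcov _ hin with h4 | h4
      · exact h4.2 h'
      · exact h4.2 h3
  have e0 : μ.restrict B0 = Measure.map f (μ.restrict B1) := by
    conv_lhs => rw [← hi]
    rw [Measure.restrict_map hf mB0]
    congr 1
    apply Measure.restrict_congr_set
    filter_upwards [hae] with z hz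
    apply propext
    change f z ∈ B0 ↔ z ∈ B1
    rcases hcov z hz with h | h
    · refine ⟨fun h' => ?_, fun h' => absurd h' h.2⟩
      have h3 := (g0 z h.1).1
      exfalso
      have hin : f z ∈ Ico (0:ℝ) 2 := ⟨by linarith [h'.1], by linarith [h'.2]⟩
      rcases hcov _ hin with h4 | h4
      · exact h4.2 h3
      · exact h4.2 h'
    · exact ⟨fun _ => h.1, fun _ => (g1 z h.1).1⟩
  have hν1 : Measure.map φ (μ.restrict B1) = Measure.map φ (μ.restrict B0) := by
    rw [e1, Measure.map_map hφm hf]
    apply Measure.map_congr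
    filter_upwards [ae_restrict_mem mB0] with z hz
    exact (g0 z hz).2
  have hν0 : Measure.map (fun z => (α : AddCircle (1:ℝ)) + z) (Measure.map φ (μ.restrict B0))
      = Measure.map φ (μ.restrict B0) := by
    conv_rhs => rw [e0, Measure.map_map hφm hf]
    rw [← hν1, Measure.map_map (measurable_const_add _) hφm]
    apply Measure.map_congr
    filter_upwards [ae_restrict_mem mB1] with z hz
    exact (g1 z hz).2.symm
  obtain ⟨c, hc⟩ := rot_unique hα _ hν0
  have hm0 : μ B0 = c := by
    have := congrArg (fun m : Measure (AddCircle (1:ℝ)) => m univ) hc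
    simp only [Measure.map_apply hφm MeasurableSet.univ, preimage_univ, Measure.restrict_apply_univ,
      Measure.smul_apply] at this
    rw [this]
    simp [AddCircle.measure_univ]
  have hm1 : μ B1 = c := by
    have := congrArg (fun m : Measure (AddCircle (1:ℝ)) => m univ) hν1
    simp only [Measure.map_apply hφm MeasurableSet.univ, preimage_univ,
      Measure.restrict_apply_univ] at this
    rw [this, hm0]
  have hdisj : Disjoint B0 B1 := by
    rw [Set.disjoint_left]
    intro z hz hz'
    simp only [hB0, hB1, mem_union, mem_Ico] at hz hz'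
    rcases hz' with h | h <;> linarith [hz.1, hz.2, h.1, h.2]
  have hsum : μ.restrict B0 + μ.restrict B1 = μ := by
    rw [← Measure.restrict_union hdisj mB1]
    apply Measure.restrict_eq_self_of_ae_mem
    filter_upwards [hae] with z hz
    rcases hcov z hz with h | h
    · exact Or.inl h.1
    · exact Or.inr h.1
  have hcc : c = 2⁻¹ := by
    have := congrArg (fun m : Measure ℝ => m univ) hsum
    simp only [Measure.add_apply, Measure.restrict_apply_univ, hm0, hm1, measure_univ] at this
    have h2 : c + c = 1 := by exact_mod_cast this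
    have h3 : (c : ℝ) + c = 1 := by exact_mod_cast h2
    apply NNReal.eq
    push_cast
    linarith
  have hrec : μ.restrict B0 = Measure.map s ((2⁻¹ : NNReal) • (volume : Measure (AddCircle (1:ℝ)))) := by
    rw [← hcc, ← hc, Measure.map_map hs hφm]
    conv_lhs => rw [← Measure.map_id (μ := μ.restrict B0)]
    apply Measure.map_congr
    filter_upwards [ae_restrict_mem mB0] with z hz
    exact (hsec z hz).symm
  conv_lhs => rw [← hsum, e1, hrec]

theorem restrict_glue {p q r : ℝ} (h1 : p ≤ q) (h2 : q ≤ r) :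
    (volume : Measure ℝ).restrict (Ico p r) = volume.restrict (Ico p q) + volume.restrict (Ico q r) := by
  rw [← Measure.restrict_union _ measurableSet_Ico, Ico_union_Ico_eq_Ico h1 h2]
  rw [Set.disjoint_left]
  intro z hz hz'
  exact absurd hz.2 (not_lt.2 hz'.1)

theorem map_piece (f : ℝ → ℝ) {p q c : ℝ} (h : ∀ z ∈ Ico p q, f z = z + c) :
    Measure.map f (volume.restrict (Ico p q)) = volume.restrict (Ico (p + c) (q + c)) := by
  have h1 : Measure.map f (volume.restrict (Ico p q))
      = Measure.map (fun z => z + c) (volume.restrict (Ico p q)) := by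
    apply Measure.map_congr
    filter_upwards [ae_restrict_mem measurableSet_Ico] with z hz
    exact h z hz
  have h2 : (fun z : ℝ => z + c) ⁻¹' (Ico (p + c) (q + c)) = Ico p q := by
    ext z; simp
  rw [h1, ← h2, ← Measure.restrict_map (measurable_add_const c) measurableSet_Ico,
    map_add_right_eq_self]

theorem leb_inv {α : ℝ} (h0 : 0 < α) (h1 : α < 1)
    (f : ℝ → ℝ) (hf : Measurable f)
    (f1 : ∀ z ∈ Ico 0 α, f z = z + α) (f2 : ∀ z ∈ Ico α 1, f z = z + 1)
    (f3 : ∀ z ∈ Ico 1 (1 + α), f z = z - 1) (f4 : ∀ z ∈ Ico (1 + α) 2, f z = z + α - 1) :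
    Measure.map f (volume.restrict (Ico 0 2)) = volume.restrict (Ico 0 2) := by
  have e : (volume : Measure ℝ).restrict (Ico 0 2) = volume.restrict (Ico 0 α) +
      (volume.restrict (Ico α 1) + (volume.restrict (Ico 1 (1+α)) + volume.restrict (Ico (1+α) 2))) := by
    rw [← restrict_glue (by linarith) (by linarith), ← restrict_glue (by linarith) (by linarith),
      ← restrict_glue (by linarith) (by linarith)]
  have e' : (volume : Measure ℝ).restrict (Ico 0 2) = volume.restrict (Ico 0 α) +
      (volume.restrict (Ico α (2*α)) + (volume.restrict (Ico (2*α) (1+α)) +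
        volume.restrict (Ico (1+α) 2))) := by
    rw [← restrict_glue (by linarith) (by linarith), ← restrict_glue (by linarith) (by linarith),
      ← restrict_glue (by linarith) (by linarith)]
  conv_lhs => rw [e]
  rw [Measure.map_add _ _ hf, Measure.map_add _ _ hf, Measure.map_add _ _ hf,
    map_piece f (c := α) f1, map_piece f (c := 1) f2,
    map_piece f (c := -1) (fun z hz => by rw [f3 z hz]; ring),
    map_piece f (c := α - 1) (fun z hz => by rw [f4 z hz]; ring)]
  have a1 : (0:ℝ) + α = α := by ring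
  have a2 : α + α = 2 * α := by ring
  have a3 : α + 1 = 1 + α := by ring
  have a4 : (1:ℝ) + 1 = 2 := by ring
  have a5 : (1:ℝ) + -1 = 0 := by ring
  have a6 : (1:ℝ) + α + -1 = α := by ring
  have a7 : 1 + α + (α - 1) = 2 * α := by ring
  have a8 : 2 + (α - 1) = 1 + α := by ring
  rw [a1, a2, a3, a4, a5, a6, a7, a8, e']
  abel

end Pool.Agent.Y834.IET
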