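import Mathlib

/-!
# Unique ergodicity of irrational rotations

A finite Borel measure on the circle `ℝ/ℤ` which is invariant under an irrational rotation is a
multiple of Lebesgue measure.
-/

set_option autoImplicit false

open MeasureTheory Set

namespace Pool.Agent.Y834.IET

theorem map_zsmul {ν : Measure (AddCircle (1:ℝ))} (g : AddCircle (1:ℝ))
    (h : Measure.map (fun z => g + z) ν = ν) (n : ℤ) :
    Measure.map (fun z => n • g + z) ν = ν := by
  have hm : ∀ c : AddCircle (1:ℝ), Measurable (fun z : AddCircle (1:ℝ) => c + z) :=
    fun c => measurable_const_add c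
  have hneg : Measure.map (fun z => -g + z) ν = ν := by
    conv_lhs => rw [← h]
    rw [Measure.map_map (hm _) (hm _)]
    have : ((fun z : AddCircle (1:ℝ) => -g + z) ∘ fun z => g + z) = id := by
      funext z; simp
    rw [this, Measure.map_id]
  induction n using Int.induction_on with
  | zero => simp
  | succ n ih =>
    conv_lhs => rw [← h]
    rw [Measure.map_map (hm _) (hm _)]
    have : ((fun z : AddCircle (1:ℝ) => ((n:ℤ) + 1) • g + z) ∘ fun z => g + z)
        = (fun z => g + z) ∘ (fun z => g + z) ∘ (fun z => (n:ℤ) • g + z) := by
      funext z; simp only [Function.comp, add_smul, one_smul]; abel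
    rw [this, ← Measure.map_map (hm _) ((hm _).comp (hm _)), ← Measure.map_map (hm _) (hm _), ih,
      h, h]
  | pred n ih =>
    conv_lhs => rw [← hneg]
    rw [Measure.map_map (hm _) (hm _)]
    have : ((fun z : AddCircle (1:ℝ) => (-(n:ℤ) - 1) • g + z) ∘ fun z => -g + z)
        = (fun z => -g + z) ∘ (fun z => -g + z) ∘ (fun z => (-(n:ℤ)) • g + z) := by
      funext z; simp only [Function.comp, sub_smul, one_smul]; abel
    rw [this, ← Measure.map_map (hm _) ((hm _).comp (hm _)), ← Measure.map_map (hm _) (hm _), ih,
      hneg, hneg]

/-- a finite measure on the circle invariant under an irrational rotation is a multiple of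
Lebesgue measure -/
theorem rot_unique {α : ℝ} (hα : Irrational α) (ν : Measure (AddCircle (1:ℝ)))
    [IsFiniteMeasure ν]
    (h : Measure.map (fun z => (α : AddCircle (1:ℝ)) + z) ν = ν) :
    ∃ c : NNReal, ν = c • (volume : Measure (AddCircle (1:ℝ))) := by
  haveI : Fact (0 < (1:ℝ)) := ⟨one_pos⟩
  have hm : ∀ c : AddCircle (1:ℝ), Measurable (fun z : AddCircle (1:ℝ) => c + z) :=
    fun c => measurable_const_add c
  have hdense : DenseRange (· • (α : AddCircle (1:ℝ)) : ℤ → AddCircle (1:ℝ)) :=
    AddCircle.denseRange_zsmul_coe_iff.2 (by simpa using hα)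
  haveI : ν.IsAddLeftInvariant := by
    constructor
    intro g
    haveI : IsFiniteMeasure (Measure.map (fun z => g + z) ν) := by infer_instance
    apply ext_of_forall_integral_eq_of_IsFiniteMeasure
    intro f
    rw [integral_map (hm g).aemeasurable f.continuous.aestronglyMeasurable]
    have hc : Continuous (fun g : AddCircle (1:ℝ) => ∫ z, f (g + z) ∂ν) := by
      apply continuous_of_dominated (bound := fun _ => ‖f‖)
      · intro g
        exact (f.continuous.comp (continuous_const.add continuous_id)).aestronglyMeasurable
      · intro g
        exact Filter.Eventually.of_forall fun z => f.norm_coe_le_norm _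
      · exact integrable_const _
      · exact Filter.Eventually.of_forall fun z =>
          f.continuous.comp (continuous_id.add continuous_const)
    have he : (fun g : AddCircle (1:ℝ) => ∫ z, f (g + z) ∂ν) = fun _ => ∫ z, f z ∂ν := by
      apply hdense.equalizer hc continuous_const
      funext n
      simp only [Function.comp]
      conv_rhs => rw [← map_zsmul _ h n]
      rw [integral_map (hm _).aemeasurable f.continuous.aestronglyMeasurable]
    exact congrFun he g
  exact ⟨_, Measure.isAddInvariant_eq_smul_of_compactSpace ν volume⟩

end Pool.Agent.Y834.IET
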